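import Pool.Agent.Z15P.Z15.J.Stm
import Pool.Agent.Z15P.T2h64.H15.CYC

/-!
Generic points of linear subspaces: `T_LIN`.
-/

set_option autoImplicit false

open FF FF.PP MvPolynomial Pool.Agent.Z15P.Z15.H Pool.Agent.Z15P.Z15.J Pool.Agent.Z15P.T2h64.H15

namespace Pool.Agent.Z15P.T2h99.J

section

variable {K : Type} [Field K] {ι E : Type} [Fintype ι] [Field E] [Algebra K E]

/-- the generic point of a linear subspace -/
noncomputable def gp {l : ℕ} (θ : Fin l → E) (fl : ℕ → ι → K) : ι → E := fun i =>
  algebraMap K E (fl 0 i) + ∑ j : Fin l, θ j * algebraMap K E (fl (j + 1) i)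

theorem exists_dual {l : ℕ} {fl : ℕ → ι → K} (h : LinearIndependent K (fun j : Fin (l + 1) => fl j))
    (j : Fin (l + 1)) : ∃ c : ι → K, ∀ m : Fin (l + 1), ∑ i, c i * fl m i = if m = j then 1 else 0 := by
  classical
  obtain ⟨f, hf⟩ : ∃ f : (ι → K) →ₗ[K] K, ∀ m : Fin (l + 1), f (fl m) = if m = j then 1 else 0 := by
    obtain ⟨f, hf⟩ := LinearMap.exists_extend
      (((Module.Basis.span h).constr K (fun m : Fin (l + 1) => if m = j then (1 : K) else 0)))
    refine ⟨f, fun m => ?_⟩
    have h1 : fl m ∈ Submodule.span K (Set.range fun j : Fin (l + 1) => fl j) :=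
      Submodule.subset_span ⟨m, rfl⟩
    have h2 := congrArg (fun g => g ⟨fl m, h1⟩) hf
    simp only [LinearMap.comp_apply, Submodule.subtype_apply] at h2
    rw [h2]
    have h3 : (⟨fl m, h1⟩ : Submodule.span K (Set.range fun j : Fin (l + 1) => fl j)) =
        (Module.Basis.span h) m := by
      apply Subtype.ext
      rw [Module.Basis.span_apply]
    rw [h3, Module.Basis.constr_basis]
  refine ⟨fun i => f (Pi.single i 1), fun m => ?_⟩
  rw [← hf m]
  conv_rhs => rw [← Finset.univ_sum_single (fl m), map_sum]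
  refine Finset.sum_congr rfl fun i _ => ?_
  have : (Pi.single i (fl m i) : ι → K) = (fl m i) • Pi.single i 1 := by
    rw [← Pi.single_smul, smul_eq_mul, mul_one]
  rw [this, map_smul, smul_eq_mul, mul_comm]

theorem ratio_gp {l : ℕ} (θ : Fin l → E) (fl : ℕ → ι → K)
    (hθ : IntermediateField.adjoin K (Set.range θ) = ⊤)
    (h : LinearIndependent K (fun j : Fin (l + 1) => fl j)) : ratioField K (gp θ fl) = ⊤ := by
  have hc : ∀ c : ι → K, ∑ i, algebraMap K E (c i) * gp θ fl i =
      algebraMap K E (∑ i, c i * fl 0 i) + ∑ j : Fin l, θ j * algebraMap K E (∑ i, c i * fl (j + 1) i) := by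
    intro c
    unfold gp
    simp only [mul_add, Finset.mul_sum, Finset.sum_add_distrib, map_sum, map_mul]
    congr 1
    rw [Finset.sum_comm]
    refine Finset.sum_congr rfl fun j _ => Finset.sum_congr rfl fun i _ => ?_
    ring
  -- the point is not zero
  obtain ⟨c0, hc0⟩ := exists_dual h 0
  have h0 : ∑ i, algebraMap K E (c0 i) * gp θ fl i = 1 := by
    rw [hc]
    have h1 := hc0 0
    rw [if_pos rfl] at h1
    have h2 : ∀ j : Fin l, ∑ i, c0 i * fl (j + 1) i = 0 := by
      intro j
      have := hc0 j.succ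
      rw [if_neg (Fin.succ_ne_zero j)] at this
      exact this
    rw [Fin.val_zero] at h1
    rw [h1, map_one]
    simp only [h2, map_zero, mul_zero, Finset.sum_const_zero, add_zero]
  obtain ⟨i0, hi0⟩ : ∃ i, gp θ fl i ≠ 0 := by
    by_contra hn
    push Not at hn
    simp only [hn, mul_zero, Finset.sum_const_zero] at h0
    exact zero_ne_one h0
  set R := ratioField K (gp θ fl) with hR
  have hmem : ∀ i, gp θ fl i / gp θ fl i0 ∈ R := fun i => by
    rw [hR]
    exact IntermediateField.subset_adjoin _ _ ⟨i, i0, rfl⟩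
  have hlin : ∀ c : ι → K, (∑ i, algebraMap K E (c i) * gp θ fl i) / gp θ fl i0 ∈ R := by
    intro c
    rw [Finset.sum_div]
    refine sum_mem fun i _ => ?_
    rw [mul_div_assoc]
    exact mul_mem (R.algebraMap_mem _) (hmem i)
  have hinv : (gp θ fl i0)⁻¹ ∈ R := by
    have := hlin c0
    rwa [h0, one_div] at this
  have hP : gp θ fl i0 ∈ R := by
    have := inv_mem hinv
    rwa [inv_inv] at this
  rw [eq_top_iff, ← hθ, IntermediateField.adjoin_le_iff]
  rintro _ ⟨j, rfl⟩
  obtain ⟨c, hcj⟩ := exists_dual h j.succ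
  have h1 : ∑ i, algebraMap K E (c i) * gp θ fl i = θ j := by
    rw [hc]
    have e0 := hcj 0
    rw [if_neg (Fin.succ_ne_zero j).symm, Fin.val_zero] at e0
    have e1 : ∀ m : Fin l, ∑ i, c i * fl (m + 1) i = if m = j then 1 else 0 := by
      intro m
      have := hcj m.succ
      simp only [Fin.succ_inj] at this
      exact this
    rw [e0, map_zero, zero_add]
    simp only [e1]
    simp
  have h2 := mul_mem (hlin c) hP
  rw [h1, div_mul_cancel₀ _ hi0] at h2
  exact h2

omit [Fintype ι] in
theorem locus_gp [Infinite K] {l : ℕ} (θ : Fin l → E) (fl : ℕ → ι → K) (hθ : AlgebraicIndependent K θ) :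
    locus K (gp θ fl) = {G | ∀ n, ∀ a : Fin (l + 1) → K,
      eval (fun i => ∑ j, a j * fl j i) (homogeneousComponent n G) = 0} := by
  ext G
  show (∀ n, _) ↔ ∀ n, _
  refine forall_congr' fun n => ?_
  obtain ⟨g, hg⟩ : ∃ g, g = homogeneousComponent n G := ⟨_, rfl⟩
  have hgh : g.IsHomogeneous n := by rw [hg]; exact homogeneousComponent_isHomogeneous n G
  rw [← hg]
  -- the restriction to the affine space
  obtain ⟨g1, hg1⟩ : ∃ g1 : MvPolynomial (Fin l) K, g1 = aeval (fun i => C (fl 0 i) +
    ∑ j : Fin l, X j * C (fl (j + 1) i)) g := ⟨_, rfl⟩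
  have k1 : ∀ (A : Type) [CommRing A] [Algebra K A] (s : Fin l → A), aeval s g1 =
      aeval (fun i => algebraMap K A (fl 0 i) + ∑ j : Fin l, s j * algebraMap K A (fl (j + 1) i)) g := by
    intro A _ _ s
    rw [hg1, comp_aeval_apply (φ := aeval (R := K) s)]
    congr 1
    congr 1
    funext i
    rw [map_add, map_sum]
    simp only [map_mul, aeval_X, algHom_C]
  -- the restriction to the linear space
  obtain ⟨g2, hg2⟩ : ∃ g2 : MvPolynomial (Fin (l + 1)) K, g2 = aeval (fun i =>
    ∑ j : Fin (l + 1), X j * C (fl j i)) g := ⟨_, rfl⟩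
  have k2 : ∀ a : Fin (l + 1) → K, eval a g2 = eval (fun i => ∑ j, a j * fl j i) g := by
    intro a
    have h1 := comp_aeval_apply (φ := aeval (R := K) a) (fun i =>
      ∑ j : Fin (l + 1), X j * C (fl j i)) g
    rw [← hg2] at h1
    rw [show eval a g2 = aeval a g2 by rfl, h1]
    show _ = aeval _ g
    congr 1
    congr 1
    funext i
    rw [map_sum]
    simp only [map_mul, aeval_X, algHom_C]
    rfl
  have hP : aeval (gp θ fl) g = aeval θ g1 := (k1 E θ).symm
  rw [hP]
  constructor
  · intro h
    have h1 : g1 = 0 := (injective_iff_map_eq_zero _).1 hθ _ h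
    have h2 : X 0 * g2 = 0 := by
      apply MvPolynomial.funext
      intro a
      rw [map_mul, eval_X, map_zero]
      by_cases ha : a 0 = 0
      · rw [ha, zero_mul]
      · rw [k2]
        have h3 := aeval_scale (k := K) (fun i => fl 0 i + ∑ j : Fin l, (a j.succ / a 0) * fl (j + 1) i) (a 0) hgh
        have h4 : (fun i => a 0 * (fl 0 i + ∑ j : Fin l, (a j.succ / a 0) * fl (j + 1) i)) =
            fun i => ∑ j, a j * fl j i := by
          funext i
          rw [Fin.sum_univ_succ, mul_add, Finset.mul_sum]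
          congr 1
          refine Finset.sum_congr rfl fun j _ => ?_
          rw [Fin.val_succ, ← mul_assoc, mul_div_cancel₀ _ ha]
        have h5 := k1 K (fun j : Fin l => a j.succ / a 0)
        rw [h1, map_zero] at h5
        rw [h4] at h3
        have h6 : aeval (fun i => fl 0 i + ∑ j : Fin l, (a j.succ / a 0) * fl (j + 1) i) g = 0 := h5.symm
        rw [h6, mul_zero] at h3
        have h7 : eval (fun i => ∑ j, a j * fl j i) g = 0 := h3
        rw [h7, mul_zero]
    have h3 : g2 = 0 := (mul_eq_zero.1 h2).resolve_left (X_ne_zero 0)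
    intro a
    rw [← k2, h3, map_zero]
  · intro h
    have h1 : g1 = 0 := by
      apply MvPolynomial.funext
      intro s
      rw [map_zero]
      have h2 := k1 K s
      have h3 := h (Fin.cons 1 s)
      rw [show eval s g1 = aeval s g1 by rfl, h2]
      have h4 : (fun i => ∑ j, (Fin.cons 1 s : Fin (l + 1) → K) j * fl j i) =
          fun i => algebraMap K K (fl 0 i) + ∑ j : Fin l, s j * algebraMap K K (fl (j + 1) i) := by
        funext i
        rw [Fin.sum_univ_succ]
        simp
      rw [h4] at h3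
      exact h3
    rw [h1, map_zero]

end

theorem t_LIN : Pool.Agent.Z15P.Z15.J.Stm.T_LIN := by
  intro K _ _ ι E _ _ _ l θ fl hθ hθ' h
  show cyc K (gp θ fl) = lin K fl l
  unfold cyc lin
  rw [ratio_gp θ fl hθ' h, locus_gp θ fl hθ, IntermediateField.finrank_top]
  rfl

end Pool.Agent.Z15P.T2h99.J
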